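import Pool.Agent.H635Z.L

set_option autoImplicit false

open Polynomial Finset Pool.Agent.H635Z

namespace Pool.Agent.V11304.Diag

lemma LM_coeffs (M : Multiset ℝ) : (LM M).coeff 0 = 1 ∧ (LM M).coeff 1 = -M.sum ∧
    2 * (LM M).coeff 2 = M.sum ^ 2 - (M.map (fun x => x ^ 2)).sum := by
  induction M using Multiset.induction_on with
  | empty => simp [LM, coeff_one]
  | cons a M ih =>
    obtain ⟨h0, h1, h2⟩ := ih
    rw [LM_cons]
    refine ⟨?_, ?_, ?_⟩
    · rw [lin_mul_coeff_zero, h0]
    · rw [show (1 : ℕ) = 0 + 1 by norm_num, lin_mul_coeff, h0, zero_add, h1, Multiset.sum_cons]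
      ring
    · rw [show (2 : ℕ) = 1 + 1 by norm_num, lin_mul_coeff, h1, Multiset.sum_cons,
        Multiset.map_cons, Multiset.sum_cons]
      have : (1 + 1 : ℕ) = 2 := rfl
      rw [this]
      linear_combination h2

/-- rigidity: two vanishing coefficients next to the leading one -/
lemma rigid (p : ℝ[X]) (hp : p.Splits) (m : ℕ) (hm : p.natDegree = m) (h2m : 2 ≤ m)
    (h1 : p.coeff (m - 1) = 0) (h2 : p.coeff (m - 2) = 0) : ∀ k < m, p.coeff k = 0 := by
  have hp0 : p ≠ 0 := by
    rintro rfl
    rw [natDegree_zero] at hm; omega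
  have hlc : p.leadingCoeff ≠ 0 := leadingCoeff_ne_zero.mpr hp0
  have hcard : Multiset.card p.roots = m := by rw [← hp.natDegree_eq_card_roots, hm]
  have hR : reflect m p = C p.leadingCoeff * LM p.roots := by
    conv_lhs => rw [hp.eq_prod_roots]
    rw [reflect_C_mul, ← reflect_LM, hcard]
  obtain ⟨c0, c1, c2⟩ := LM_coeffs p.roots
  have e1 : p.leadingCoeff * (LM p.roots).coeff 1 = 0 := by
    rw [← coeff_C_mul, ← hR, coeff_reflect, revAt_le (by omega), h1]
  have e2 : p.leadingCoeff * (LM p.roots).coeff 2 = 0 := by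
    rw [← coeff_C_mul, ← hR, coeff_reflect, revAt_le (by omega), h2]
  have f1 := (mul_eq_zero.mp e1).resolve_left hlc
  have f2 := (mul_eq_zero.mp e2).resolve_left hlc
  rw [f1] at c1
  rw [f2] at c2
  have hs : p.roots.sum = 0 := by linarith
  have hsq : (p.roots.map (fun x => x ^ 2)).sum = 0 := by rw [hs] at c2; linarith
  have hz : ∀ a ∈ p.roots, a = 0 := by
    intro a ha
    have h3 := Multiset.single_le_sum (s := p.roots.map (fun x => x ^ 2)) (by
      intro x hx
      rw [Multiset.mem_map] at hx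
      obtain ⟨y, _, rfl⟩ := hx
      positivity) (a ^ 2) (Multiset.mem_map_of_mem _ ha)
    rw [hsq] at h3
    have : a ^ 2 = 0 := le_antisymm h3 (by positivity)
    exact pow_eq_zero_iff (by norm_num) |>.mp this
  intro k hk
  have h4 : p.coeff k = (reflect m p).coeff (m - k) := by
    rw [coeff_reflect, revAt_le (by omega)]
    congr 1; omega
  rw [h4, hR, LM_zeros _ hz, mul_one, coeff_C, if_neg (by omega)]

lemma eval_pos_of_nonneg (r : ℝ[X]) (h0 : r ≠ 0) (h : ∀ k, 0 ≤ r.coeff k) (x : ℝ) (hx : 0 < x) :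
    0 < r.eval x := by
  rw [eval_eq_sum_range]
  apply sum_pos' (fun k _ => mul_nonneg (h k) (pow_nonneg hx.le k))
  refine ⟨r.natDegree, by simp, ?_⟩
  have h1 : r.coeff r.natDegree ≠ 0 := by
    rw [coeff_natDegree]; exact leadingCoeff_ne_zero.mpr h0
  exact mul_pos (lt_of_le_of_ne (h _) (Ne.symm h1)) (pow_pos hx _)

lemma roots_nonpos (r : ℝ[X]) (h : ∀ k, 0 ≤ r.coeff k) : ∀ x ∈ r.roots, x ≤ 0 := by
  intro x hx
  by_contra hcon
  push Not at hcon
  have h0 : r ≠ 0 := by rintro rfl; simp at hx
  have h1 := eval_pos_of_nonneg r h0 h x hcon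
  rw [mem_roots h0, IsRoot.def] at hx
  linarith

/-- at most one positive root -/
lemma one_pos_root (p : ℝ[X]) (d : ℕ) (hd : p.natDegree ≤ d) (h : ∀ k < d, p.coeff k ≤ 0) :
    Multiset.card (p.roots.filter (fun x => 0 < x)) ≤ 1 := by
  by_cases hex : ∃ x ∈ p.roots, 0 < x
  · obtain ⟨x, hx, hx0⟩ := hex
    have hp0 : p ≠ 0 := by rintro rfl; simp at hx
    rw [mem_roots hp0] at hx
    obtain ⟨r, hr⟩ := dvd_iff_isRoot.mpr hx
    have hr0 : r ≠ 0 := by rintro rfl; simp at hr; exact hp0 hr
    have hdeg : r.natDegree + 1 = p.natDegree := by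
      rw [hr, natDegree_mul (X_sub_C_ne_zero x) hr0, natDegree_X_sub_C]; ring
    have hc : ∀ k, k < d → 0 ≤ r.coeff k := by
      intro k
      induction k with
      | zero =>
        intro h0
        have h1 := h 0 h0
        rw [hr, sub_mul, coeff_sub, coeff_X_mul_zero, coeff_C_mul] at h1
        have : 0 ≤ x * r.coeff 0 := by linarith
        exact nonneg_of_mul_nonneg_right this hx0
      | succ k ih =>
        intro hk
        have h1 := h (k + 1) hk
        rw [hr, sub_mul, coeff_sub, coeff_X_mul, coeff_C_mul] at h1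
        have h2 := ih (by omega)
        have : 0 ≤ x * r.coeff (k + 1) := by linarith
        exact nonneg_of_mul_nonneg_right this hx0
    have hc' : ∀ k, 0 ≤ r.coeff k := by
      intro k
      by_cases hk : k < d
      · exact hc k hk
      · rw [coeff_eq_zero_of_natDegree_lt (by omega)]
    have h3 := roots_nonpos r hc'
    have h4 : p.roots = {x} + r.roots := by
      rw [hr, roots_mul (by rw [← hr]; exact hp0), roots_X_sub_C]
    rw [h4, Multiset.filter_add, Multiset.card_add]
    have h5 : r.roots.filter (fun x => 0 < x) = 0 := by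
      rw [Multiset.filter_eq_nil]
      intro y hy
      have := h3 y hy
      linarith
    rw [h5, Multiset.card_zero, add_zero]
    exact (Multiset.card_le_card (Multiset.filter_le _ _)).trans (by simp)
  · push Not at hex
    have h5 : p.roots.filter (fun x => 0 < x) = 0 := by
      rw [Multiset.filter_eq_nil]
      intro y hy
      have := hex y hy
      linarith
    rw [h5]; simp

lemma comp_neg_coeff (p : ℝ[X]) (k : ℕ) : (p.comp (-X)).coeff k = p.coeff k * (-1) ^ k := by
  have : p.comp (-X) = sc (-1) p := by unfold sc; simp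
  rw [this, sc_coeff]

/-- a real-rooted binomial with exponents differing by two -/
lemma binom_sign (a b : ℝ) (k : ℕ) (p : ℝ[X]) (hp : p.Splits)
    (he : p = C b * X ^ (k + 2) + C a * X ^ k) : a * b ≤ 0 := by
  by_contra hcon
  push Not at hcon
  have ha : a ≠ 0 := by rintro rfl; simp at hcon
  have hb : b ≠ 0 := by rintro rfl; simp at hcon
  have hab : 0 < a / b := by
    have : a / b = a * b / b ^ 2 := by field_simp
    rw [this]; positivity
  have hp0 : p ≠ 0 := by
    intro h
    have : p.coeff k = a := by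
      rw [he]; simp [coeff_X_pow]
    rw [h, coeff_zero] at this
    exact ha this.symm
  have hz := real_of_splits p hp hp0 (Complex.I * (Real.sqrt (a / b) : ℂ)) (by
    rw [he]
    simp only [map_add, map_mul, aeval_C, map_pow, aeval_X, Complex.coe_algebraMap]
    have h1 : ((Real.sqrt (a / b) : ℝ) : ℂ) ^ 2 = (a : ℂ) / b := by
      rw [← Complex.ofReal_pow, Real.sq_sqrt hab.le]; push_cast; ring
    have h2 : (Complex.I * (Real.sqrt (a / b) : ℂ)) ^ 2 = -((a : ℂ) / b) := by
      rw [mul_pow, Complex.I_sq, h1]; ring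
    have hb' : (b : ℂ) ≠ 0 := by exact_mod_cast hb
    rw [pow_add, h2]
    field_simp
    ring)
  simp at hz
  have := Real.sqrt_pos.mpr hab
  linarith

/-- the abstract sign pattern -/
lemma sign_pattern (lam : ℕ → ℝ) (M : ℕ) (hM : lam M ≠ 0)
    (H2 : ∀ k, k + 2 ≤ M → 0 ≤ lam k * lam (k + 2))
    (HP : ∀ m, 1 ≤ m → m ≤ M → lam m ≠ 0 → lam (m - 1) = 0 → ∀ k < m, lam k = 0) :
    ∃ ε : ℝ, (ε = 1 ∨ ε = -1) ∧ ∀ j ≤ M, 0 ≤ ε ^ j * (lam (M - j) * lam M) := by
  have hZ : ∀ i l, l + i = M → lam l = 0 → ∀ k < l, lam k = 0 := by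
    intro i
    induction i with
    | zero =>
      intro l hl h0
      rw [add_zero] at hl
      rw [hl] at h0
      exact absurd h0 hM
    | succ i ih =>
      intro l hl h0 k hk
      by_cases h1 : lam (l + 1) = 0
      · exact ih (l + 1) (by omega) h1 k (by omega)
      · exact HP (l + 1) (by omega) (by omega) h1 (by simpa using h0) k (by omega)
  obtain ⟨ε, hε, h1⟩ : ∃ ε : ℝ, (ε = 1 ∨ ε = -1) ∧ 0 ≤ ε * (lam (M - 1) * lam M) := by
    rcases le_total 0 (lam (M - 1) * lam M) with h | h
    · exact ⟨1, Or.inl rfl, by linarith⟩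
    · exact ⟨-1, Or.inr rfl, by linarith⟩
  have hε2 : ε ^ 2 = 1 := by rcases hε with h | h <;> rw [h] <;> norm_num
  refine ⟨ε, hε, ?_⟩
  intro j
  induction j using Nat.strong_induction_on with
  | _ j ih =>
    rcases j with _ | _ | j
    · intro _
      rw [pow_zero, one_mul, Nat.sub_zero]
      exact mul_self_nonneg _
    · intro _
      rw [zero_add, pow_one]
      exact h1
    · intro hj
      by_cases h0 : lam (M - j) = 0
      · rw [hZ j (M - j) (by omega) h0 (M - (j + 1 + 1)) (by omega)]
        simp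
      · have h2 := ih j (by omega) (by omega)
        have h3 := H2 (M - (j + 1 + 1)) (by omega)
        rw [show M - (j + 1 + 1) + 2 = M - j by omega] at h3
        have h4 : 0 ≤ (ε ^ (j + 1 + 1) * (lam (M - (j + 1 + 1)) * lam M)) * (lam (M - j)) ^ 2 := by
          have := mul_nonneg h2 h3
          rw [show j + 1 + 1 = j + 2 by ring] at *
          rw [pow_add, hε2]
          nlinarith [this]
        exact nonneg_of_mul_nonneg_left h4 (by positivity)

end Pool.Agent.V11304.Diag
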